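import Pool.Agent.Helper27.EV2.Rec

/-!
# EV2, R2, R5, R13: the base point, the number of crossings, diagrams which are not connected
-/

set_option autoImplicit false

namespace Pool.Agent.Helper49.EV2

open Polynomial Pool.Agent.Helper85.Exp Pool.Agent.Helper60.EV2 Pool.Agent.Helper27.EV2

/-- R2 -/
theorem exists_base {W : Word} (hW : Ok W) (hne : W ≠ []) : ∃ b : Pt W, IsBase b := by
  have h0 : 0 < W.length := List.length_pos_iff.2 hne
  have h1 := hW.ext 0 h0
  cases he : (row W 0).e with
  | mx k d =>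
    rw [he] at h1
    have h2 : k ≤ (lv W 0).length := h1
    have hk : k = 0 := by
      rw [Inj.lv_zero] at h2
      simpa using h2
    subst hk
    have hl : lv W 1 = [d, !d] := by
      have := Inj.lv_succ h0
      rw [he, Inj.lv_zero] at this
      simpa [Ext.act] using this
    cases d with
    | true => exact ⟨⟨0, 0, 0, h0, Nat.zero_le _, by simp [hl]⟩, rfl, rfl, by simp [dir, hl]⟩
    | false => exact ⟨⟨0, 0, 1, h0, Nat.zero_le _, by simp [hl]⟩, rfl, rfl, by simp [dir, hl]⟩
  | mn k =>
    rw [he] at h1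
    have := Inj.mn_lt h1
    rw [Inj.lv_zero] at this
    simp at this

theorem und_iff {W : Word} (hW : Ok W) (v : Pt W) :
    (op v ≠ v ∧ lf v = true) ↔ v.i < (row W v.r).w.length ∧ v.j = (row W v.r).w.getD v.i 0 := by
  unfold lf
  rw [decide_eq_true_iff]
  constructor
  · rintro ⟨h1, h2⟩
    have hc : Cro v := by
      by_contra hn
      exact h1 (op_of_not hn)
    exact ⟨hc.1, h2⟩
  · rintro ⟨h1, h2⟩
    obtain ⟨c1, c2, c3⟩ := Inj.cr_dir hW v.hr h1
    have hc : Cro v := ⟨h1, c1, c2, c3, Or.inl h2⟩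
    refine ⟨?_, h2⟩
    intro h
    rw [op_of hc] at h
    have := congrArg Pt.j h
    simp only at this
    rw [h2] at this
    simp [sw] at this

/-- The number of crossings. -/
theorem card_und {W : Word} (hW : Ok W) [DecidablePred fun v : Pt W => op v ≠ v ∧ lf v = true] :
    (Finset.univ.filter fun v : Pt W => op v ≠ v ∧ lf v = true).card = crossings W := by
  classical
  have e : {v : Pt W // v ∈ (Finset.univ.filter fun v : Pt W => op v ≠ v ∧ lf v = true)} ≃
      (Σ r : Fin W.length, Fin (row W r).w.length) :=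
    { toFun := fun v => ⟨⟨v.1.r, v.1.hr⟩, ⟨v.1.i, ((und_iff hW v.1).1 (Finset.mem_filter.1 v.2).2).1⟩⟩
      invFun := fun q => ⟨⟨q.1, q.2, (row W q.1).w.getD q.2 0, q.1.2, q.2.2.le,
          Nat.lt_of_succ_lt (Inj.cr_dir hW q.1.2 q.2.2).2.2⟩,
        Finset.mem_filter.2 ⟨Finset.mem_univ _, (und_iff hW _).2 ⟨q.2.2, rfl⟩⟩⟩
      left_inv := by
        rintro ⟨v, hv⟩
        apply Subtype.ext
        apply Pt.ext
        · rfl
        · rfl
        · exact ((und_iff hW v).1 (Finset.mem_filter.1 hv).2).2.symm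
      right_inv := by
        rintro ⟨r, i⟩
        rfl }
  rw [← Fintype.card_coe, Fintype.card_congr e, Fintype.card_sigma]
  simp only [Fintype.card_fin]
  unfold crossings
  rw [← Fin.sum_univ_fun_getElem]
  apply Finset.sum_congr rfl
  intro r _
  congr 2
  simp [row, List.getD_eq_getElem?_getD]

/-- R5: the writhe of the positive diagram = the number of positive crossings -/
theorem wr_allPos {W : Word} (hW : Ok W) : wr (allPos (shadow W hW)) = crossings W := by
  classical
  unfold wr
  rw [← card_und hW, Finset.card_filter, Nat.cast_sum]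
  apply Finset.sum_congr rfl
  intro i _
  by_cases h : op i ≠ i ∧ lf i = true
  · have h' : (shadow W hW).op i ≠ i ∧ (shadow W hW).lf i = true := h
    rw [if_pos h, if_pos h']
    rfl
  · have h' : ¬ ((shadow W hW).op i ≠ i ∧ (shadow W hW).lf i = true) := h
    rw [if_neg h, if_neg h']
    rfl

/-- R13: diagrams which are not connected -/
theorem nab_zero {W : Word} (hW : Ok W) {nab : Dg (shadow W hW) → ℤ[X]} (h : Cs nab) (hc : ¬ Conn W)
    (D : Dg (shadow W hW)) : nab D = 0 := by
  classical
  unfold Conn at hc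
  push Not at hc
  obtain ⟨C, ⟨v, hv⟩, hn, ho, ⟨u, hu⟩⟩ := hc
  have hmem : ∀ x, x ∈ (Finset.univ.filter fun x => C x) ↔ C x := fun x => by simp
  have hop : ∀ x, C ((shadow W hW).op x) ↔ C x := ho
  have hnx : ∀ x, C ((shadow W hW).nxt x) ↔ C x := hn
  refine h.split D (Finset.univ.filter fun x => C x) ⟨v, (hmem v).2 hv⟩ ?_ ?_ ?_
  · intro e
    exact hu ((hmem u).1 (Finset.eq_univ_iff_forall.1 e u))
  · intro x
    rw [hmem, hmem]
    unfold Dg.tr
    rw [hnx]
    split_ifs
    · exact hop x
    · rfl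
  · intro x hx hox
    exact absurd ((hmem _).2 ((hop x).2 ((hmem x).1 hx))) hox

end Pool.Agent.Helper49.EV2
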